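import Mathlib
import Pool.Agent.Q51.HG.PairsHt
import Pool.Agent.Q51.HG.Proj
import Pool.Agent.Q51.HG.SmoothCI

set_option autoImplicit false

/-!
# Lang's strong conjecture for general complete intersections: groups of finite rank

Let `X` be a complete intersection of forms `F 1, …, F q` of degrees `d 1, …, d q > 0` in projective
`n`-space over a number field `K`. Suppose that `2 n + 1 ≤ ∑ (d i + 1)` (for a hypersurface: degree at
least `2 n`), or that `2 n - 1 ≤ ∑ (d i + 1)` and `n - q ≥ 5` or `3 n + 3 ≤ 2 ∑ d i + q` (for a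
hypersurface and `n ≥ 6`: degree at least `2 n - 2`; for `∑ (d i + 1) ≤ 2 n - 2` general `X` contain
lines). For every `r` there are `ε > 0` and a nonzero polynomial `h` with integral coefficients in the
coefficients of the forms, such that for ALL number fields `K` and all forms over `K` with `h (F) ≠ 0`
(that is, for 100 percent of the complete intersections, over every number field) `X` is smooth, and
for every finitely generated group `Γ` of algebraic numbers:

* (height inequality) there is `C` such that all points `x = ∑ u j V j` of `X`, `r` terms, where the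
  `u j` have a power in `Γ` and the `V j` are ANY vectors of algebraic numbers, satisfy
  `h(x) ≤ C (1 + h(V))`;
* (Mordell-Lang and Bogomolov property) there are `A` and `e` such that for all vectors `V j` of
  algebraic numbers there are at most `A (1 + h(V)) ^ e` points of `X` of the form `∑ u j s j V j`,
  where the `u j` have a power in `Γ` and the height of `s` is less than `ε`.

In particular the exceptional set `Z` of the strong conjecture can be taken empty for these points.
-/

namespace Pool.Agent.Results.MP_7ede32_ag.GeneralCompleteInters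

open MvPolynomial
open Pool.Agent.Helper259.AbsHt
open scoped LinearAlgebra.Projectivization

/-- The indices of the coefficients of `q` forms of degrees `d i` in `n + 1` variables. -/
abbrev Index (n : ℕ) {q : ℕ} (d : Fin q → ℕ) : Type :=
  (i : Fin q) × {α : Fin (n + 1) →₀ ℕ // α.degree = d i}

/-- The value of the polynomial `h` at the coefficients of the forms `F i`. -/
noncomputable def valueAt {n q : ℕ} {d : Fin q → ℕ} {K : Type} [Field K]
    (h : MvPolynomial (Index n d) ℤ) (F : Fin q → MvPolynomial (Fin (n + 1)) K) : K :=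
  aeval (fun x : Index n d => coeff x.2.1 (F x.1)) h

/-- The range of the degrees. -/
def Range (n : ℕ) {q : ℕ} (d : Fin q → ℕ) : Prop :=
  2 * n + 1 ≤ ∑ i, (d i + 1) ∨
    (2 * n ≤ ∑ i, (d i + 1) + 1 ∧ (q + 5 ≤ n ∨ 3 * n + 3 ≤ 2 * ∑ i, d i + q))

/-- `x` is a vector of homogeneous coordinates of a point of `X = {F = 0}`. -/
def On {n q : ℕ} {K Ω : Type} [Field K] [Field Ω] [Algebra K Ω]
    (F : Fin q → MvPolynomial (Fin (n + 1)) K) (x : Fin (n + 1) → Ω) : Prop :=
  x ≠ 0 ∧ ∀ i, aeval x (F i) = 0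

/-- `X = {F = 0}` is a smooth complete intersection: the gradients of the forms are linearly
independent in its points. -/
def Smooth {n q : ℕ} {K : Type} [Field K] (F : Fin q → MvPolynomial (Fin (n + 1)) K) : Prop :=
  ∀ (Ω : Type) [Field Ω] [Algebra K Ω] (x : Fin (n + 1) → Ω), On F x →
    LinearIndependent Ω (fun i => fun k => aeval x (pderiv k (F i)))

/-- The algebraic numbers. -/
abbrev Qbar : Type := AlgebraicClosure ℚ

/-- The height of a sequence of vectors, as a point of projective space. -/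
noncomputable def hV {n r : ℕ} (V : Fin r → Fin (n + 1) → Qbar) : ℝ :=
  absLogHeight (fun p : Fin r × Fin (n + 1) => V p.1 p.2)

/-- The height inequality for sums of `r` elements of the division hull of a finitely generated
group, with vectors as coefficients. -/
def HeightInequality (r : ℕ) {n q : ℕ} {K : Type} [Field K]
    (F : Fin q → MvPolynomial (Fin (n + 1)) K) : Prop :=
  ∀ [Algebra K Qbar] (Γ : Subgroup Qbarˣ), Γ.FG → ∃ C : ℝ,
    ∀ (u : Fin r → Qbarˣ) (V : Fin r → Fin (n + 1) → Qbar),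
      (∀ j, ∃ m : ℕ, 0 < m ∧ u j ^ m ∈ Γ) → On F (fun i => ∑ j, (u j : Qbar) * V j i) →
      absLogHeight (fun i => ∑ j, (u j : Qbar) * V j i) ≤ C * (1 + hV V)

/-- The points of `X` of the form `∑ u j s j V j`, with `u j` in the division hull of `Γ` and `s` of
height less than `ε`. -/
def nearPoints {n q r : ℕ} {K : Type} [Field K] [Algebra K Qbar]
    (F : Fin q → MvPolynomial (Fin (n + 1)) K) (Γ : Subgroup Qbarˣ) (ε : ℝ)
    (V : Fin r → Fin (n + 1) → Qbar) : Set (ℙ Qbar (Fin (n + 1) → Qbar)) :=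
  {P | ∃ (u : Fin r → Qbarˣ) (s : Fin r → Qbar) (h : (fun i => ∑ j, (u j : Qbar) * (s j * V j i)) ≠ 0),
    (∀ j, ∃ m : ℕ, 0 < m ∧ u j ^ m ∈ Γ) ∧ absLogHeight s < ε ∧ P = Projectivization.mk Qbar _ h ∧
      On F (fun i => ∑ j, (u j : Qbar) * (s j * V j i))}

/-- These points are finite in number, with a polynomial bound. -/
def NearFinite (r : ℕ) (ε : ℝ) {n q : ℕ} {K : Type} [Field K]
    (F : Fin q → MvPolynomial (Fin (n + 1)) K) : Prop :=
  ∀ [Algebra K Qbar] (Γ : Subgroup Qbarˣ), Γ.FG → ∃ (A : ℝ) (e : ℕ),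
    ∀ V : Fin r → Fin (n + 1) → Qbar, (nearPoints F Γ ε V).Finite ∧
      ((nearPoints F Γ ε V).ncard : ℝ) ≤ A * (1 + hV V) ^ e

theorem valueAt_eq {n q : ℕ} {d : Fin q → ℕ} {K : Type} [Field K]
    (h : MvPolynomial (Index n d) ℤ) (F : Fin q → MvPolynomial (Fin (n + 1)) K) :
    valueAt h F = Pool.Agent.Q51.HG.sp d F h := rfl

theorem smooth_of {n q : ℕ} {d : Fin q → ℕ} {h : MvPolynomial (Index n d) ℤ}
    (hh : ∀ (L : Type) [Field L] (F : Fin q → MvPolynomial (Fin (n + 1)) L),
      (∀ i, (F i).IsHomogeneous (d i)) → Pool.Agent.Q51.HG.sp d F h ≠ 0 →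
      ∀ x : Fin (n + 1) → L, x ≠ 0 → (∀ i, eval x (F i) = 0) →
      LinearIndependent L (fun i => fun k => eval x (pderiv k (F i))))
    {K : Type} [Field K] (F : Fin q → MvPolynomial (Fin (n + 1)) K)
    (hF : ∀ i, (F i).IsHomogeneous (d i)) (hv : valueAt h F ≠ 0) : Smooth F := by
  intro Ω _ _ x hx
  have h1 := hh Ω (fun i => map (algebraMap K Ω) (F i)) (fun i => (hF i).map _) (by
    rw [Pool.Agent.Q51.HG.sp_map]
    exact (map_ne_zero _).2 hv) x hx.1 (fun i => by
      rw [eval_map, ← aeval_def]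
      exact hx.2 i)
  have h2 : (fun i => fun k => eval x (pderiv k (map (algebraMap K Ω) (F i)))) =
      (fun i => fun k => aeval x (pderiv k (F i))) := by
    funext i k
    rw [pderiv_map, eval_map, ← aeval_def]
  rw [h2] at h1
  exact h1

theorem result (n : ℕ) {q : ℕ} (d : Fin q → ℕ) (hn : 1 ≤ n) (hd0 : ∀ i, 0 < d i)
    (hd : Range n d) (r : ℕ) :
    ∃ (ε : ℝ) (h : MvPolynomial (Index n d) ℤ), 0 < ε ∧ h ≠ 0 ∧
      ∀ (K : Type) [Field K] [NumberField K] (F : Fin q → MvPolynomial (Fin (n + 1)) K),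
        (∀ i, (F i).IsHomogeneous (d i)) → valueAt h F ≠ 0 →
        Smooth F ∧ HeightInequality r F ∧ NearFinite r ε F := by
  have hgm := Pool.Agent.Q51.HG.noGm_range hn d hd0 hd
  have hD1 : 1 ≤ ∑ i, d i := by
    have hq : 0 < q := by
      rcases Nat.eq_zero_or_pos q with h | h
      · exfalso
        subst h
        unfold Range at hd
        simp at hd
        omega
      · exact h
    have := Finset.single_le_sum (f := d) (fun _ _ => Nat.zero_le _) (Finset.mem_univ ⟨0, hq⟩)
    have := hd0 ⟨0, hq⟩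
    omega
  have hdD : ∀ i, d i ≤ ∑ i, d i := fun i =>
    Finset.single_le_sum (f := d) (fun _ _ => Nat.zero_le _) (Finset.mem_univ i)
  obtain ⟨h2, h20, h2s⟩ := Pool.Agent.Q51.HG.gen_smooth_ci n d
  obtain ⟨h4, h40, h4s⟩ := Pool.Agent.Q51.HG.gen_noCurP d Finset.univ hgm r
  refine ⟨Pool.Agent.Y215.SP.epsn ((∑ i, d i + 1) ^ r) / ((∑ i, d i : ℕ) : ℝ) / 2, h2 * h4,
    half_pos (div_pos (Pool.Agent.Y215.SP.epsn_pos _ (Nat.one_le_pow _ _ (by omega)))
      (by exact_mod_cast hD1)), mul_ne_zero h20 h40, fun K _ _ F hF hv => ?_⟩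
  rw [valueAt_eq, map_mul] at hv
  have hv2 := left_ne_zero_of_mul hv
  have hv4 := right_ne_zero_of_mul hv
  refine ⟨smooth_of h2s F hF hv2, ?_, ?_⟩
  · intro _ Γ hΓ
    obtain ⟨C, hC⟩ := Pool.Agent.Q51.HG.proj_heights F hF Γ hΓ (h4s K F hF hv4)
    exact ⟨C, fun u V hu hon => hC u V hu hon.1 hon.2⟩
  · intro _ Γ hΓ
    obtain ⟨A, e, hA⟩ := Pool.Agent.Q51.HG.proj_near F hF Γ hΓ (h4s K F hF hv4) (∑ i, d i) hD1 hdD
    refine ⟨A, e, fun V => ?_⟩
    have hsub : nearPoints F Γ (Pool.Agent.Y215.SP.epsn ((∑ i, d i + 1) ^ r) /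
        ((∑ i, d i : ℕ) : ℝ) / 2) V ⊆ Pool.Agent.Y215.SK.mixPts F 1 Γ
          (Pool.Agent.Y215.SP.epsn ((∑ i, d i + 1) ^ r) / ((∑ i, d i : ℕ) : ℝ) / 2) V := by
      rintro P ⟨u, s, h0, hu, hs, rfl, hon⟩
      exact ⟨u, s, hu, hs, ⟨hon.1, hon.2, by rw [map_one]; exact one_ne_zero⟩, h0, rfl⟩
    obtain ⟨h6, h7⟩ := hA V
    exact ⟨h6.subset hsub, le_trans (by exact_mod_cast Set.ncard_le_ncard hsub h6) h7⟩

end Pool.Agent.Results.MP_7ede32_ag.GeneralCompleteInters
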