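import Pool.Agent.Q183.RS.Fin

/-!
# Lang's strong conjecture for sequences of points given by linear recurrences

Let `X` be the closed subvariety of projective `N`-space over a number field `k` given by the forms
in `FF`, which generate a prime ideal.

(1) Suppose that `X` is not uniruled (for instance of general type, of positive dimension).  For
every `r` there is a proper closed subset `Z = X ∩ {G = 0}` of `X`, defined over `k`, such that for
all fields `K ⊇ k` with at most continuum many elements:

* for every difference ring `B` of sequences over `K` whose shift is surjective, and every sequence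
  of points `x m` of `X` over `K` whose coordinates satisfy nontrivial linear recurrences of order
  at most `r` with coefficients in `B`, the ratios of the coordinates are algebraic over `B` along
  the set of all `m` for which `x m` is outside `Z`;
* for recurrences of order at most `r` with polynomial coefficients, the ratios are algebraic
  functions of the index `m` along this set; if `x m` is outside `Z` from some index on, then there
  are `M > 0` and vectors of polynomials `p 0, ..., p (M - 1)` over `K`, which are curves on `X`,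
  such that `x m` is proportional to the value of `p (m mod M)` at `m` for all large `m`.

(2) If `X` is uniruled, this fails: for some `r` and for every proper closed subset `G = 0` there
are a number field `K ⊇ k` and a sequence of points of `X` over `K`, all of them outside `G = 0`,
whose coordinates satisfy linear recurrences of order at most `r` with constant coefficients, such
that the ratio of two of the coordinates is not an algebraic function of the index.
-/

set_option autoImplicit false

namespace Pool.Agent.Results.MP_7ede32_ag.RecurrentStrong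

open MvPolynomial Filter Pool.Agent.H533R3.SL Pool.Agent.Q183.RS Cardinal

theorem result {k : Type} [Field k] [NumberField k] {N : ℕ}
    (FF : Set (MvPolynomial (Fin (N + 1)) k)) (hprime : (Ideal.span FF).IsPrime) (d : ℕ)
    (hd : 1 ≤ d) (hFF : ∀ F ∈ FF, ∃ e, e ≤ d ∧ F.IsHomogeneous e) :
    (¬ Uniruled (Ideal.span FF) → ∀ r : ℕ,
      ∃ G : MvPolynomial (Fin (N + 1)) k, (∃ e, G.IsHomogeneous e) ∧ G ∉ Ideal.span FF ∧
      ∀ (K : Type) [Field K] [Algebra k K], #K ≤ 𝔠 →
        (∀ B : Subalgebra K (ℕ → K), DiffRing B → Inversive B →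
          ∀ x : ℕ → Fin (N + 1) → K, (∀ j, RecK B r (fun m => x m j)) →
          (∀ F ∈ FF, ∀ m, aeval (x m) F = 0) →
          ∀ i j, AlgPairK B {m | aeval (x m) G ≠ 0} (fun m => x m i) (fun m => x m j)) ∧
        ∀ x : ℕ → Fin (N + 1) → K, (∀ j, PRecO r (fun m => x m j)) →
          (∀ F ∈ FF, ∀ m, aeval (x m) F = 0) →
          (∀ i j, AlgIndex {m | aeval (x m) G ≠ 0} (fun m => x m i) (fun m => x m j)) ∧
          ((∀ m, x m ≠ 0) → (∀ᶠ m in atTop, aeval (x m) G ≠ 0) →
            ∃ (M : ℕ) (p : ℕ → Fin (N + 1) → Polynomial K), 0 < M ∧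
              (∀ a < M, ∀ F ∈ FF, aeval (p a) F = 0) ∧
              ∀ᶠ m : ℕ in atTop, ∃ b : K, b ≠ 0 ∧
                ∀ j, (p (m % M) j).eval (m : K) = b * x m j)) ∧
    (Uniruled (Ideal.span FF) → ∃ r : ℕ,
      ∀ G : MvPolynomial (Fin (N + 1)) k, (∃ e, G.IsHomogeneous e) → G ∉ Ideal.span FF →
      ∃ (K : Type) (_ : Field K) (_ : NumberField K) (_ : Algebra k K)
        (x : ℕ → Fin (N + 1) → K), (∀ j, CRecO r (fun m => x m j)) ∧ (∀ m, x m ≠ 0) ∧
        (∀ F ∈ FF, ∀ m, aeval (x m) F = 0) ∧ (∀ m, aeval (x m) G ≠ 0) ∧
        ∃ i j, ¬ AlgIndex Set.univ (fun m => x m i) (fun m => x m j)) := by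
  refine ⟨fun hnu r => ?_, fun hu => conv_proj FF hu⟩
  obtain ⟨G, hG1, hG2, hG3⟩ := proj_fin FF hprime hnu d hd hFF r
  refine ⟨G, hG1, hG2, ?_⟩
  intro K _ _ hK
  have hchar : CharZero K := charZero_of_injective_algebraMap (algebraMap k K).injective
  obtain ⟨h1, h2⟩ := hG3 K hK
  have h3 : ∀ B : Subalgebra K (ℕ → K), DiffRing B → Inversive B →
      ∀ x : ℕ → Fin (N + 1) → K, (∀ j, RecK B r (fun m => x m j)) →
      (∀ F ∈ FF, ∀ m, aeval (x m) F = 0) →
      ∀ i j, AlgPairK B {m | aeval (x m) G ≠ 0} (fun m => x m i) (fun m => x m j) := by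
    intro B hB hinv x hx hF i j
    obtain ⟨t, ht⟩ := h1 B hB x hx fun F hF' => Eventually.of_forall (hF F hF')
    exact AlgPairK.unshift (A := {m | aeval (x m) G ≠ 0}) (f := fun m => x m i)
      (g := fun m => x m j) hinv (ht i j)
  refine ⟨h3, fun x hx hF => ⟨fun i j => ?_, fun hne hG => ?_⟩⟩
  · exact (h3 (polyB K) polyB_ring polyB_inv x (fun j => (hx j).recK) hF i j).index
  · exact h2 x hne hx (fun F hF' => Eventually.of_forall (hF F hF')) hG

end Pool.Agent.Results.MP_7ede32_ag.RecurrentStrong
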