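import Mathlib
import Pool.Agent.Q256.UP.PrC

set_option autoImplicit false

/-!
# Almost all varieties of general type with a rational point of moderate height have exactly one

Let `F = (F_1, …, F_r)` run through the systems of integral forms of degrees `d_1, …, d_r ≥ 1` in
`n + 1` variables with coefficients of absolute value at most `H`, where
`D = d_1 + … + d_r ≥ n + 2`: the smooth complete intersections of this kind are of general type.
We show without any hypothesis that among the systems with a rational zero of height at most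
`H ^ (D / (n + 1) - η)` all but a proportion `O(H ^ (-δ))` have exactly one such zero, and that
its height is at most `R` except for a proportion `O(R ^ (-(D - n - 1)) + H ^ (-δ))`.
-/

namespace Pool.Agent.Results.MP_7ede32_ag.UniqueRationalPoint

open MvPolynomial

/-- The systems of `r` integral forms of degrees `d_i` in `n + 1` variables all of whose
coefficients have absolute value at most `H`. -/
def Systems {r : ℕ} (n : ℕ) (d : Fin r → ℕ) (H : ℕ) :
    Set (Fin r → MvPolynomial (Fin (n + 1)) ℤ) :=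
  {F | ∀ i, (F i).IsHomogeneous (d i) ∧ ∀ α, |(F i).coeff α| ≤ H}

/-- The primitive integral vectors `y` of height `max |y_k| ≤ T` which are zeros of the system.
Every rational zero in projective space of height at most `T` is represented by exactly two such
vectors, `y` and `-y`. -/
def Zeros {n r : ℕ} (F : Fin r → MvPolynomial (Fin (n + 1)) ℤ) (T : ℕ) :
    Set (Fin (n + 1) → ℤ) :=
  {y | Finset.univ.gcd y = 1 ∧ (∀ k, |y k| ≤ T) ∧ ∀ i, eval y (F i) = 0}

open Pool.Agent.Q256.UP in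
theorem prim_iff {n : ℕ} (y : Fin (n + 1) → ℤ) : Finset.univ.gcd y = 1 ↔ IsPrim y := by
  constructor
  · intro h
    have h1 : Ideal.span (Set.range y) = ⊤ := by
      have h2 : Ideal.span (Set.range y) = Ideal.span {Finset.univ.gcd y} := by
        apply le_antisymm
        · rw [Ideal.span_le]
          rintro _ ⟨k, rfl⟩
          exact Ideal.mem_span_singleton.2 (Finset.gcd_dvd (Finset.mem_univ k))
        · obtain ⟨g, hg⟩ := (IsPrincipalIdealRing.principal (Ideal.span (Set.range y))).principal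
          rw [hg]
          rw [Ideal.submodule_span_eq, Ideal.span_singleton_le_span_singleton]
          apply Finset.dvd_gcd
          intro k _
          have : y k ∈ Ideal.span (Set.range y) := Ideal.subset_span ⟨k, rfl⟩
          rw [hg] at this
          exact Ideal.mem_span_singleton.1 this
      rw [h2, h, Ideal.span_singleton_one]
    exact Ideal.mem_span_range_iff_exists_fun.1 ((Ideal.eq_top_iff_one _).1 h1)
  · rintro ⟨a, ha⟩
    have h1 : Finset.univ.gcd y ∣ 1 := by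
      rw [← ha]
      exact Finset.dvd_sum (fun k hk => (Finset.gcd_dvd hk).mul_left _)
    have h2 : normalize (Finset.univ.gcd y) = Finset.univ.gcd y := Finset.normalize_gcd
    rw [← h2]
    exact normalize_eq_one.2 (isUnit_of_dvd_one h1)

open Pool.Agent.Q256.UP in
theorem tail_le {n r : ℕ} (d : Fin r → ℕ) (H R T : ℕ) :
    Nat.card {F | F ∈ Systems n d H ∧ ∃ y ∈ Zeros F T, ∃ k, (R : ℤ) < |y k|} ≤
      Nat.card (PS1 n d H R T) := by
  simp only [Nat.card_coe_set_eq]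
  apply Set.ncard_le_ncard _ ((finite_sys n d H).subset (fun F hF => hF.1))
  rintro F ⟨hF, y, hy, hR⟩
  exact ⟨hF, y, (prim_iff y).1 hy.1, hR, hy.2.1, hy.2.2⟩

open Pool.Agent.Q256.UP in
theorem two_le {n r : ℕ} (d : Fin r → ℕ) (H T : ℕ) :
    Nat.card {F | F ∈ Systems n d H ∧ ∃ y ∈ Zeros F T, ∃ z ∈ Zeros F T, z ≠ y ∧ z ≠ -y} ≤
      Nat.card (PS2 n d H T) := by
  simp only [Nat.card_coe_set_eq]
  apply Set.ncard_le_ncard _ ((finite_sys n d H).subset (fun F hF => hF.1))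
  rintro F ⟨hF, y, hy, z, hz, hne1, hne2⟩
  refine ⟨hF, y, z, (prim_iff y).1 hy.1, (prim_iff z).1 hz.1, ?_, hy.2.1, hz.2.1, hy.2.2, hz.2.2⟩
  by_contra hcon
  push Not at hcon
  obtain ⟨a, ha⟩ := (prim_iff y).1 hy.1
  obtain ⟨b, hb⟩ := (prim_iff z).1 hz.1
  -- `z = c y` with `c = ∑ a_k z_k`, and `y = c' z`
  have h1 : ∀ j, z j = (∑ k, a k * z k) * y j := by
    intro j
    rw [Finset.sum_mul]
    calc z j = (∑ k, a k * y k) * z j := by rw [ha, one_mul]
      _ = ∑ k, a k * z k * y j := by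
        rw [Finset.sum_mul]
        refine Finset.sum_congr rfl (fun k _ => ?_)
        have := hcon k j
        linear_combination a k * this
  have h2 : (∑ k, b k * y k) * (∑ k, a k * z k) = 1 := by
    rw [Finset.sum_mul]
    calc ∑ k, b k * y k * (∑ k, a k * z k) = ∑ k, b k * z k := by
          refine Finset.sum_congr rfl (fun k _ => ?_)
          rw [h1 k]; ring
      _ = 1 := hb
  rcases Int.isUnit_iff.1 (IsUnit.of_mul_eq_one _ (by rw [mul_comm]; exact h2)) with h3 | h3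
  · apply hne1
    funext j
    rw [h1 j, h3, one_mul]
  · apply hne2
    funext j
    rw [h1 j, h3, Pi.neg_apply]; ring

open Pool.Agent.Q256.UP in
theorem one_ge {n r : ℕ} (d : Fin r → ℕ) (H T : ℕ) (hT : 1 ≤ T) :
    (2 * H + 1) ^ (∑ i, ((n + d i).choose n - 1)) ≤
      Nat.card {F | F ∈ Systems n d H ∧ (Zeros F T).Nonempty} := by
  refine (lower_sys d H T hT).trans ?_
  simp only [Nat.card_coe_set_eq]
  apply Set.ncard_le_ncard _ ((finite_sys n d H).subset (fun F hF => hF.1))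
  rintro F ⟨hF, y, hy, hT', h0⟩
  exact ⟨hF, y, (prim_iff y).2 hy, hT', h0⟩

/-- Let `d_1, …, d_r ≥ 1` and `D = d_1 + … + d_r ≥ n + 2`, let `N_i = binom(n + d_i, n)` and let
`F = (F_1, …, F_r)` run through the systems of integral forms of degrees `d_i` in `n + 1`
variables with coefficients of absolute value at most `H ≥ 1`.
Part 1. For all `R` and `T` at most `C H^(∑ (N_i - 1)) ((R+1)^(-(D-n-1)) + T^(n+1) H^(-D))` systems
have a rational zero of height in `(R, T]`, and at most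
`C H^(∑ (N_i - 1)) (H^(-r(D-n-1)/(D+n+1)) + T^(n+1) H^(-D))` have two different rational zeros of
height at most `T`, whereas at least `(2H+1)^(∑ (N_i - 1))` have a rational zero of height at most
`T`, if `T ≥ 1`.
Part 2. Let `η > 0` and `1 ≤ T ≤ H^(D/(n+1)-η)`. Among the systems with a rational zero of height
at most `T` all but a proportion `C H^(-δ)` have exactly one such zero, and all but a proportion
`C (R+1)^(-(D-n-1)) + C H^(-δ)` have no rational zero of height in `(R, T]`. -/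
theorem result (n r : ℕ) (d : Fin r → ℕ) (hd : ∀ i, 1 ≤ d i) (hD : n + 2 ≤ ∑ i, d i) :
    (∃ C : ℝ, 0 < C ∧ ∀ H : ℕ, 1 ≤ H →
      (∀ R T : ℕ,
        (Nat.card {F | F ∈ Systems n d H ∧ ∃ y ∈ Zeros F T, ∃ k, (R : ℤ) < |y k|} : ℝ) ≤
        C * (H : ℝ) ^ (∑ i, ((n + d i).choose n - 1)) *
          (1 / ((R : ℝ) + 1) ^ (∑ i, d i - n - 1) +
            (T : ℝ) ^ (n + 1) / (H : ℝ) ^ (∑ i, d i))) ∧
      (∀ T : ℕ,
        (Nat.card {F | F ∈ Systems n d H ∧ ∃ y ∈ Zeros F T, ∃ z ∈ Zeros F T, z ≠ y ∧ z ≠ -y} : ℝ) ≤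
        C * (H : ℝ) ^ (∑ i, ((n + d i).choose n - 1)) *
          ((H : ℝ) ^ (-((r : ℝ) * (((∑ i, d i : ℕ) : ℝ) - n - 1) /
              (((∑ i, d i : ℕ) : ℝ) + n + 1))) +
            (T : ℝ) ^ (n + 1) / (H : ℝ) ^ (∑ i, d i))) ∧
      (∀ T : ℕ, 1 ≤ T → (2 * H + 1) ^ (∑ i, ((n + d i).choose n - 1)) ≤
        Nat.card {F | F ∈ Systems n d H ∧ (Zeros F T).Nonempty})) ∧
    (∀ η : ℝ, 0 < η → ∃ C δ : ℝ, 0 < C ∧ 0 < δ ∧ ∀ H T : ℕ, 1 ≤ H → 1 ≤ T →
      (T : ℝ) ≤ (H : ℝ) ^ (((∑ i, d i : ℕ) : ℝ) / (n + 1) - η) →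
      (Nat.card {F | F ∈ Systems n d H ∧ ∃ y ∈ Zeros F T, ∃ z ∈ Zeros F T, z ≠ y ∧ z ≠ -y} : ℝ) ≤
        C * (H : ℝ) ^ (-δ) * Nat.card {F | F ∈ Systems n d H ∧ (Zeros F T).Nonempty} ∧
      ∀ R : ℕ,
        (Nat.card {F | F ∈ Systems n d H ∧ ∃ y ∈ Zeros F T, ∃ k, (R : ℤ) < |y k|} : ℝ) ≤
        C * (1 / ((R : ℝ) + 1) ^ (∑ i, d i - n - 1) + (H : ℝ) ^ (-δ)) *
          Nat.card {F | F ∈ Systems n d H ∧ (Zeros F T).Nonempty}) := by
  have hr : 0 < r := by
    rcases Nat.eq_zero_or_pos r with h | h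
    · subst h; simp at hD
    · exact h
  set C0 : ℝ := 4 * (n + 1) * 3 ^ n * Pool.Agent.Q256.UP.C1 n d + Pool.Agent.Q256.UP.C2 n d
    with hC0
  have hC1 := Pool.Agent.Q256.UP.C1_pos n d
  have hC2 := Pool.Agent.Q256.UP.C2_pos n d
  have hC0pos : 0 < C0 := by positivity
  set D : ℕ := ∑ i, d i with hDdef
  have hpart : ∀ H : ℕ, 1 ≤ H →
      (∀ R T : ℕ,
        (Nat.card {F | F ∈ Systems n d H ∧ ∃ y ∈ Zeros F T, ∃ k, (R : ℤ) < |y k|} : ℝ) ≤
        C0 * (H : ℝ) ^ (∑ i, ((n + d i).choose n - 1)) *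
          (1 / ((R : ℝ) + 1) ^ (D - n - 1) + (T : ℝ) ^ (n + 1) / (H : ℝ) ^ D)) ∧
      (∀ T : ℕ,
        (Nat.card {F | F ∈ Systems n d H ∧ ∃ y ∈ Zeros F T, ∃ z ∈ Zeros F T, z ≠ y ∧ z ≠ -y} : ℝ) ≤
        C0 * (H : ℝ) ^ (∑ i, ((n + d i).choose n - 1)) *
          ((H : ℝ) ^ (-((r : ℝ) * ((D : ℝ) - n - 1) / ((D : ℝ) + n + 1))) +
            (T : ℝ) ^ (n + 1) / (H : ℝ) ^ D)) ∧
      (∀ T : ℕ, 1 ≤ T → (2 * H + 1) ^ (∑ i, ((n + d i).choose n - 1)) ≤
        Nat.card {F | F ∈ Systems n d H ∧ (Zeros F T).Nonempty}) := by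
    intro H hH
    refine ⟨fun R T => ?_, fun T => ?_, fun T hT => one_ge d H T hT⟩
    · have h3 : (Nat.card {F | F ∈ Systems n d H ∧ ∃ y ∈ Zeros F T, ∃ k, (R : ℤ) < |y k|} : ℝ) ≤
          Nat.card (Pool.Agent.Q256.UP.PS1 n d H R T) := by exact_mod_cast tail_le d H R T
      refine (h3.trans (Pool.Agent.Q256.UP.tail_proj d hD H R T hH)).trans ?_
      rw [one_div, div_eq_mul_inv]
      apply mul_le_mul_of_nonneg_right _ (by positivity)
      apply mul_le_mul_of_nonneg_right _ (by positivity)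
      linarith
    · have h3 : (Nat.card {F | F ∈ Systems n d H ∧ ∃ y ∈ Zeros F T, ∃ z ∈ Zeros F T,
          z ≠ y ∧ z ≠ -y} : ℝ) ≤
          Nat.card (Pool.Agent.Q256.UP.PS2 n d H T) := by exact_mod_cast two_le d H T
      refine (h3.trans (Pool.Agent.Q256.UP.two_proj d hd hD H T hH)).trans ?_
      rw [div_eq_mul_inv ((T : ℝ) ^ (n + 1))]
      apply mul_le_mul_of_nonneg_right _ (by positivity)
      apply mul_le_mul_of_nonneg_right _ (by positivity)
      have : 0 ≤ 4 * ((n : ℝ) + 1) * 3 ^ n * Pool.Agent.Q256.UP.C1 n d := by positivity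
      linarith
  refine ⟨⟨C0, hC0pos, hpart⟩, fun η hη => ?_⟩
  have hDr : (n : ℝ) + 2 ≤ (D : ℝ) := by exact_mod_cast hD
  have hrr : (0 : ℝ) < r := by exact_mod_cast hr
  have hκpos : 0 < (r : ℝ) * ((D : ℝ) - n - 1) / ((D : ℝ) + n + 1) := by
    apply div_pos (mul_pos hrr (by linarith)) (by positivity)
  refine ⟨2 * C0, min ((r : ℝ) * ((D : ℝ) - n - 1) / ((D : ℝ) + n + 1)) η, by positivity,
    lt_min hκpos hη, ?_⟩
  intro H T hH hT1 hT
  have hH0 : (0 : ℝ) < H := by exact_mod_cast hH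
  have hH1 : (1 : ℝ) ≤ H := by exact_mod_cast hH
  obtain ⟨h1, h2, h3⟩ := hpart H hH
  set δ : ℝ := min ((r : ℝ) * ((D : ℝ) - n - 1) / ((D : ℝ) + n + 1)) η with hδ
  set W : ℝ := (Nat.card {F | F ∈ Systems n d H ∧ (Zeros F T).Nonempty} : ℝ) with hW
  have hS : (H : ℝ) ^ (∑ i, ((n + d i).choose n - 1)) ≤ W := by
    have h4 : (((2 * H + 1) ^ (∑ i, ((n + d i).choose n - 1)) : ℕ) : ℝ) ≤ W := by
      rw [hW]; exact_mod_cast h3 T hT1
    refine le_trans ?_ h4
    push_cast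
    apply pow_le_pow_left₀ hH0.le
    linarith
  have hTb : (T : ℝ) ^ (n + 1) / (H : ℝ) ^ D ≤ (H : ℝ) ^ (-δ) := by
    calc (T : ℝ) ^ (n + 1) / (H : ℝ) ^ D ≤ ((H : ℝ) ^ ((D : ℝ) / (n + 1) - η)) ^ (n + 1) /
          (H : ℝ) ^ D := by
          apply div_le_div_of_nonneg_right _ (by positivity)
          exact pow_le_pow_left₀ (Nat.cast_nonneg _) hT _
      _ = (H : ℝ) ^ (-(η * (n + 1))) := by
          rw [← Real.rpow_natCast ((H : ℝ) ^ ((D : ℝ) / (n + 1) - η)) (n + 1),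
            ← Real.rpow_mul hH0.le, ← Real.rpow_natCast (H : ℝ) D, ← Real.rpow_sub hH0]
          congr 1
          push_cast
          field_simp
          ring
      _ ≤ _ := by
          apply Real.rpow_le_rpow_of_exponent_le hH1
          have h5 := min_le_right ((r : ℝ) * ((D : ℝ) - n - 1) / ((D : ℝ) + n + 1)) η
          have h6 : (0 : ℝ) ≤ n := Nat.cast_nonneg _
          nlinarith
  have hκ : (H : ℝ) ^ (-((r : ℝ) * ((D : ℝ) - n - 1) / ((D : ℝ) + n + 1))) ≤ (H : ℝ) ^ (-δ) := by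
    apply Real.rpow_le_rpow_of_exponent_le hH1
    have := min_le_left ((r : ℝ) * ((D : ℝ) - n - 1) / ((D : ℝ) + n + 1)) η
    linarith
  have hW0 : 0 ≤ W := by positivity
  refine ⟨(h2 T).trans ?_, fun R => (h1 R T).trans ?_⟩
  · calc C0 * (H : ℝ) ^ (∑ i, ((n + d i).choose n - 1)) *
          ((H : ℝ) ^ (-((r : ℝ) * ((D : ℝ) - n - 1) / ((D : ℝ) + n + 1))) +
          (T : ℝ) ^ (n + 1) / (H : ℝ) ^ D) ≤ C0 * W * ((H : ℝ) ^ (-δ) + (H : ℝ) ^ (-δ)) := by
          apply mul_le_mul (mul_le_mul_of_nonneg_left hS hC0pos.le) (add_le_add hκ hTb)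
            (by positivity) (by positivity)
      _ = 2 * C0 * (H : ℝ) ^ (-δ) * W := by ring
  · have hR : (0 : ℝ) ≤ 1 / ((R : ℝ) + 1) ^ (D - n - 1) := by positivity
    have hHδ : (0 : ℝ) ≤ (H : ℝ) ^ (-δ) := by positivity
    calc C0 * (H : ℝ) ^ (∑ i, ((n + d i).choose n - 1)) * (1 / ((R : ℝ) + 1) ^ (D - n - 1) +
          (T : ℝ) ^ (n + 1) / (H : ℝ) ^ D) ≤
          C0 * W * (1 / ((R : ℝ) + 1) ^ (D - n - 1) + (H : ℝ) ^ (-δ)) := by
          apply mul_le_mul (mul_le_mul_of_nonneg_left hS hC0pos.le) (by linarith)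
            (by positivity) (by positivity)
      _ ≤ 2 * (C0 * W * (1 / ((R : ℝ) + 1) ^ (D - n - 1) + (H : ℝ) ^ (-δ))) := by
          have : 0 ≤ C0 * W * (1 / ((R : ℝ) + 1) ^ (D - n - 1) + (H : ℝ) ^ (-δ)) := by positivity
          linarith
      _ = _ := by ring

end Pool.Agent.Results.MP_7ede32_ag.UniqueRationalPoint
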